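import Mathlib

/-! Spacetimes on quotients `ℝⁿ/Γ` of `ℝⁿ` by discrete groups of translations, the after relation,
and the after-2 formula. -/

namespace Pool.Agent.KS6_25.CAU

open Set Relation
open scoped ContDiff

/-- A (time oriented) spacetime whose manifold is the quotient `ℝⁿ/Γ` of `ℝⁿ` by a discrete group
`Γ` of translations (`Γ = 0` is allowed).  The Lorentz metric and the timelike vector field giving
the time orientation are given by their lifts to `ℝⁿ`, which are smooth and `Γ`-invariant: a smooth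
field `g` of symmetric bilinear forms and a smooth vector field `T` with `g(T,T) < 0` such that `g`
is positive definite on the orthogonal complement of `T` (so `g` has signature `(-,+,…,+)`). -/
structure Spacetime (n : ℕ) where
  Γ : AddSubgroup (Fin n → ℝ)
  discrete : ∃ ε > 0, ∀ v ∈ Γ, ‖v‖ < ε → v = 0
  g : (Fin n → ℝ) → LinearMap.BilinForm ℝ (Fin n → ℝ)
  g_inv : ∀ v ∈ Γ, ∀ p, g (p + v) = g p
  smooth : ∀ v w, ContDiff ℝ ∞ (fun p => g p v w)
  symm : ∀ p v w, g p v w = g p w v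
  T : (Fin n → ℝ) → (Fin n → ℝ)
  T_inv : ∀ v ∈ Γ, ∀ p, T (p + v) = T p
  T_smooth : ContDiff ℝ ∞ T
  T_timelike : ∀ p, g p (T p) (T p) < 0
  pos_of_orthogonal : ∀ p v, v ≠ 0 → g p (T p) v = 0 → 0 < g p v v

/-- The points of the spacetime: the manifold `ℝⁿ/Γ`. -/
abbrev Spacetime.Pt {n : ℕ} (S : Spacetime n) : Type := (Fin n → ℝ) ⧸ S.Γ

/-- The projection `ℝⁿ → ℝⁿ/Γ` (the universal covering of the spacetime). -/
def Spacetime.proj {n : ℕ} (S : Spacetime n) (p : Fin n → ℝ) : S.Pt := QuotientAddGroup.mk p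

/-- `v` is a future directed causal vector at (the projection of) `p`. -/
def FutureCausal {n : ℕ} (S : Spacetime n) (p v : Fin n → ℝ) : Prop :=
  v ≠ 0 ∧ S.g p v v ≤ 0 ∧ S.g p (S.T p) v < 0

/-- Some smooth future directed causal curve of `ℝⁿ/Γ` runs from `x` to `y`.  Curves of `ℝⁿ/Γ` are
the projections of the curves of `ℝⁿ`. -/
def SmoothCausal {n : ℕ} (S : Spacetime n) (x y : S.Pt) : Prop :=
  ∃ (a b : ℝ) (γ : ℝ → (Fin n → ℝ)), a < b ∧ ContDiffOn ℝ ∞ γ (Icc a b) ∧
    S.proj (γ a) = x ∧ S.proj (γ b) = y ∧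
    ∀ s ∈ Icc a b, FutureCausal S (γ s) (derivWithin γ (Icc a b) s)

/-- The after relation `α`: some piecewise smooth future directed causal curve (a finite chain of
smooth ones) runs from `x` to `y`. -/
def After {n : ℕ} (S : Spacetime n) : S.Pt → S.Pt → Prop := TransGen (SmoothCausal S)

/-- Causally non-totally vicious: some point lies on no closed causal curve. -/
def CNTV {n : ℕ} (S : Spacetime n) : Prop := ∃ x, ¬ After S x x

/-- Causal: no point lies on a closed causal curve. -/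
def IsCausal {n : ℕ} (S : Spacetime n) : Prop := ∀ x, ¬ After S x x

/-- Truth set of `◇φ` in the Kripke frame `(W, R)`. -/
def Dia {W : Type} (R : W → W → Prop) (φ : W → Prop) : W → Prop := fun x => ∃ y, R x y ∧ φ y

/-- Truth set of `□φ = ¬◇¬φ`. -/
def Box {W : Type} (R : W → W → Prop) (φ : W → Prop) : W → Prop :=
  fun x => ¬ Dia R (fun y => ¬ φ y) x

/-- The after-2 formula is valid on the frame `(W, R)`. -/
def AfterTwoValid {W : Type} (R : W → W → Prop) : Prop :=
  ∀ (p₁ p₂ q : W → Prop) (x : W),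
    (Dia R (fun y => p₁ y ∧ ¬ p₂ y ∧ Box R (fun z => ¬ p₂ z) y) x ∧
      Dia R (fun y => p₂ y ∧ ¬ p₁ y ∧ Box R (fun z => ¬ p₁ z) y) x ∧ Dia R q x) →
    (Dia R (fun y => Dia R p₁ y ∧ Dia R q y) x ∨ Dia R (fun y => Dia R p₂ y ∧ Dia R q y) x)

/-! ### The example -/

variable {k : ℕ}

/-- Euclidean product of the last `k` coordinates. -/
def zz (v w : Fin (k + 3) → ℝ) : ℝ := ∑ i : Fin k, v i.succ.succ.succ * w i.succ.succ.succ

/-- The metric `-2 dt db + dc² + |dz|²`. -/
def gg (v w : Fin (k + 3) → ℝ) : ℝ := -(v 0 * w 1) - w 0 * v 1 + v 2 * w 2 + zz v w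

lemma zz_add (v v' w : Fin (k + 3) → ℝ) : zz (v + v') w = zz v w + zz v' w := by
  simp only [zz, Pi.add_apply, add_mul, Finset.sum_add_distrib]

lemma zz_smul (c : ℝ) (v w : Fin (k + 3) → ℝ) : zz (c • v) w = c * zz v w := by
  simp only [zz, Pi.smul_apply, smul_eq_mul, Finset.mul_sum, mul_assoc]

lemma zz_comm (v w : Fin (k + 3) → ℝ) : zz v w = zz w v := by
  simp only [zz, mul_comm]

lemma gg_comm (v w : Fin (k + 3) → ℝ) : gg v w = gg w v := by
  simp only [gg, zz_comm v w]; ring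

lemma gg_add (v v' w : Fin (k + 3) → ℝ) : gg (v + v') w = gg v w + gg v' w := by
  simp only [gg, zz_add, Pi.add_apply]; ring

lemma gg_smul (c : ℝ) (v w : Fin (k + 3) → ℝ) : gg (c • v) w = c * gg v w := by
  simp only [gg, zz_smul, Pi.smul_apply, smul_eq_mul]; ring

/-- The metric as a bilinear form. -/
def ggB : LinearMap.BilinForm ℝ (Fin (k + 3) → ℝ) :=
  LinearMap.mk₂ ℝ gg gg_add (fun c v w => by simpa using gg_smul c v w)
    (fun v w w' => by rw [gg_comm, gg_add, gg_comm w, gg_comm w'])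
    (fun c v w => by rw [gg_comm, gg_smul, gg_comm w]; rfl)

@[simp] lemma ggB_apply (v w : Fin (k + 3) → ℝ) : ggB v w = gg v w := rfl

/-- A point (or vector) with given coordinates. -/
def pt (t x y : ℝ) (z : Fin k → ℝ) : Fin (k + 3) → ℝ := Fin.cons t (Fin.cons x (Fin.cons y z))

@[simp] lemma pt_zero (t x y : ℝ) (z : Fin k → ℝ) : pt t x y z 0 = t := rfl
@[simp] lemma pt_one (t x y : ℝ) (z : Fin k → ℝ) : pt t x y z 1 = x := rfl
@[simp] lemma pt_two (t x y : ℝ) (z : Fin k → ℝ) : pt t x y z 2 = y := rfl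
@[simp] lemma pt_succ (t x y : ℝ) (z : Fin k → ℝ) (i : Fin k) :
    pt t x y z i.succ.succ.succ = z i := rfl

lemma ext3 {P Q : Fin (k + 3) → ℝ} (h0 : P 0 = Q 0) (h1 : P 1 = Q 1) (h2 : P 2 = Q 2)
    (h3 : ∀ i : Fin k, P i.succ.succ.succ = Q i.succ.succ.succ) : P = Q := by
  funext i
  refine Fin.cases h0 (fun i => ?_) i
  refine Fin.cases h1 (fun i => ?_) i
  refine Fin.cases h2 (fun i => ?_) i
  exact h3 i

lemma zz_self_nonneg (v : Fin (k + 3) → ℝ) : 0 ≤ zz v v :=
  Finset.sum_nonneg (fun _ _ => mul_self_nonneg _)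

lemma zz_self_eq_zero {v : Fin (k + 3) → ℝ} (h : zz v v = 0) (i : Fin k) :
    v i.succ.succ.succ = 0 := by
  have := (Finset.sum_eq_zero_iff_of_nonneg (fun _ _ => mul_self_nonneg _)).1 h i (Finset.mem_univ _)
  exact mul_self_eq_zero.1 this

/-- The time orientation. -/
noncomputable def TT : Fin (k + 3) → ℝ := pt (1 / 2) 1 0 0

lemma zz_TT (v : Fin (k + 3) → ℝ) : zz TT v = 0 := by simp [zz, TT]

lemma gg_TT (v : Fin (k + 3) → ℝ) : gg TT v = -(v 0 + v 1 / 2) := by
  simp only [gg, zz_TT]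
  simp only [TT, pt_zero, pt_one, pt_two]; ring

lemma gg_self (v : Fin (k + 3) → ℝ) : gg v v = v 2 ^ 2 + zz v v - 2 * v 0 * v 1 := by
  simp only [gg]; ring

/-- The lattice of the translations by `(0, m, m + l √2, 0)` with integers `m`, `l`. -/
noncomputable def lat (k : ℕ) : AddSubgroup (Fin (k + 3) → ℝ) where
  carrier := {v | ∃ m l : ℤ, v = pt 0 m (m + l * Real.sqrt 2) 0}
  zero_mem' := ⟨0, 0, ext3 (by simp) (by simp) (by simp) (fun i => by simp)⟩
  add_mem' := by
    rintro _ _ ⟨m, l, rfl⟩ ⟨m', l', rfl⟩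
    refine ⟨m + m', l + l', ext3 (by simp) (by simp) ?_ (fun i => by simp)⟩
    simp only [Pi.add_apply, pt_two]; push_cast; ring
  neg_mem' := by
    rintro _ ⟨m, l, rfl⟩
    refine ⟨-m, -l, ext3 (by simp) (by simp) ?_ (fun i => by simp)⟩
    simp only [Pi.neg_apply, pt_two]; push_cast; ring

lemma mem_lat {v : Fin (k + 3) → ℝ} :
    v ∈ lat k ↔ ∃ m l : ℤ, v = pt 0 m (m + l * Real.sqrt 2) 0 := Iff.rfl

lemma lat_discrete : ∃ ε > 0, ∀ v ∈ lat k, ‖v‖ < ε → v = 0 := by
  refine ⟨1, one_pos, ?_⟩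
  rintro _ ⟨m, l, rfl⟩ h
  rw [pi_norm_lt_iff one_pos] at h
  have h1 := h 1
  have h2 := h 2
  rw [pt_one, Real.norm_eq_abs] at h1
  have hm : m = 0 := by
    have : |m| < 1 := by exact_mod_cast h1
    exact Int.abs_lt_one_iff.1 this
  subst hm
  rw [pt_two, Real.norm_eq_abs] at h2
  have hl : l = 0 := by
    by_contra hl
    have h3 : (1 : ℝ) ≤ |(l : ℝ)| := by exact_mod_cast Int.one_le_abs hl
    have h4 : (1 : ℝ) ≤ Real.sqrt 2 := by
      rw [Real.one_le_sqrt]; norm_num
    have h5 : |((0 : ℤ) : ℝ) + l * Real.sqrt 2| = |(l : ℝ)| * Real.sqrt 2 := by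
      rw [Int.cast_zero, zero_add, abs_mul, abs_of_nonneg (Real.sqrt_nonneg 2)]
    rw [h5] at h2
    nlinarith
  subst hl
  exact ext3 (by simp) (by simp) (by simp) (fun i => by simp)

/-- The spacetime `ℝ × T² × ℝᵏ`. -/
noncomputable def S0 (k : ℕ) : Spacetime (k + 3) where
  Γ := lat k
  discrete := lat_discrete
  g _ := ggB
  g_inv _ _ _ := rfl
  smooth v w := contDiff_const
  symm p v w := gg_comm _ _
  T _ := TT
  T_inv _ _ _ := rfl
  T_smooth := contDiff_const
  T_timelike p := by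
    rw [ggB_apply, gg_TT]
    simp only [TT, pt_zero, pt_one]
    norm_num
  pos_of_orthogonal p v hv h := by
    rw [ggB_apply, gg_TT] at h
    rw [ggB_apply, gg_self]
    have ha : v 0 = -(v 1 / 2) := by linarith
    have hz := zz_self_nonneg v
    by_contra hcon
    push Not at hcon
    rw [ha] at hcon
    have hb : v 1 = 0 := by nlinarith [sq_nonneg (v 1), sq_nonneg (v 2)]
    have hc : v 2 = 0 := by nlinarith [sq_nonneg (v 1), sq_nonneg (v 2)]
    have hz0 : zz v v = 0 := by nlinarith [sq_nonneg (v 1), sq_nonneg (v 2)]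
    apply hv
    refine ext3 ?_ hb hc (fun i => zz_self_eq_zero hz0 i)
    rw [ha, hb]; simp

lemma futureCausal_iff (P v : Fin (k + 3) → ℝ) : FutureCausal (S0 k) P v ↔
    v 2 ^ 2 + zz v v ≤ 2 * v 0 * v 1 ∧ 0 < v 0 + v 1 / 2 := by
  unfold FutureCausal
  have e1 : (S0 k).g P v v = gg v v := rfl
  have e2 : (S0 k).g P ((S0 k).T P) v = gg TT v := rfl
  rw [e1, e2, gg_self, gg_TT]
  constructor
  · rintro ⟨_, h1, h2⟩
    exact ⟨by linarith, by linarith⟩
  · rintro ⟨h1, h2⟩
    refine ⟨?_, by linarith, by linarith⟩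
    rintro rfl
    simp at h2

lemma futureCausal_facts {P v : Fin (k + 3) → ℝ} (h : FutureCausal (S0 k) P v) :
    0 ≤ v 0 ∧ (v 0 = 0 → 0 < v 1 ∧ v 2 = 0 ∧ ∀ i : Fin k, v i.succ.succ.succ = 0) := by
  rw [futureCausal_iff] at h
  obtain ⟨h1, h2⟩ := h
  have hz := zz_self_nonneg v
  constructor
  · by_contra hb
    push Not at hb
    have h3 : 0 < v 1 := by linarith
    nlinarith [sq_nonneg (v 2)]
  · intro h0
    rw [h0] at h1 h2
    have h3 : v 2 = 0 := by nlinarith [sq_nonneg (v 2)]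
    have h4 : zz v v = 0 := by nlinarith [sq_nonneg (v 2)]
    exact ⟨by linarith, h3, fun i => zz_self_eq_zero h4 i⟩

/-- The null direction. -/
def kk : Fin (k + 3) → ℝ := pt 0 1 0 0

/-- The projection of a vector to the quotient group. -/
noncomputable def flow (s : ℝ) : (S0 k).Pt := (S0 k).proj (s • kk)

/-- The height. -/
noncomputable def ht (x : (S0 k).Pt) : ℝ :=
  QuotientAddGroup.lift (S0 k).Γ (Pi.evalAddMonoidHom (fun _ : Fin (k + 3) => ℝ) 0)
    (by
      rintro _ ⟨m, l, rfl⟩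
      rfl) x

@[simp] lemma ht_proj (p : Fin (k + 3) → ℝ) : ht ((S0 k).proj p) = p 0 := rfl

lemma proj_add (p q : Fin (k + 3) → ℝ) : (S0 k).proj (p + q) = (S0 k).proj p + (S0 k).proj q := rfl

lemma proj_surj (x : (S0 k).Pt) : ∃ p, (S0 k).proj p = x := QuotientAddGroup.mk_surjective x

lemma proj_eq {p q : Fin (k + 3) → ℝ} (h : q - p ∈ lat k) : (S0 k).proj p = (S0 k).proj q := by
  refine (QuotientAddGroup.eq).2 ?_
  rw [neg_add_eq_sub]
  exact h

/-- Affine curves. -/
lemma line (P v : Fin (k + 3) → ℝ) (hc : FutureCausal (S0 k) P v) :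
    SmoothCausal (S0 k) ((S0 k).proj P) ((S0 k).proj (P + v)) := by
  refine ⟨0, 1, fun s => P + s • v, zero_lt_one, (by fun_prop : ContDiff ℝ ∞ _).contDiffOn,
    by simp, by simp, fun s hs => ?_⟩
  have hder : HasDerivAt (fun s : ℝ => P + s • v) v s := by
    have := ((hasDerivAt_id s).smul_const v).const_add P
    simpa using this
  rw [hder.hasDerivWithinAt.derivWithin (uniqueDiffOn_Icc zero_lt_one s hs)]
  exact (futureCausal_iff _ _).2 ((futureCausal_iff _ _).1 hc)

/-- Every point of larger height is after a given point. -/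
lemma after_of_lt {x y : (S0 k).Pt} (h : ht x < ht y) : After (S0 k) x y := by
  obtain ⟨P, rfl⟩ := proj_surj x
  obtain ⟨Q, rfl⟩ := proj_surj y
  rw [ht_proj, ht_proj] at h
  set D := Q - P with hD
  have hD0 : 0 < D 0 := by rw [hD, Pi.sub_apply]; linarith
  have hs0 : 0 < Real.sqrt 2 := by positivity
  have hs2 : Real.sqrt 2 * Real.sqrt 2 = 2 := Real.mul_self_sqrt (by norm_num)
  have hz := zz_self_nonneg D
  obtain ⟨m, hm⟩ := exists_int_gt ((2 + zz D D) / (2 * D 0) - D 1)
  set l : ℤ := -⌊(D 2 + m) / Real.sqrt 2⌋ with hl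
  set u : Fin (k + 3) → ℝ := pt 0 m (m + l * Real.sqrt 2) 0 with hu
  have hmem : u ∈ lat k := ⟨m, l, rfl⟩
  have hc1 : 0 ≤ D 2 + (m + l * Real.sqrt 2) := by
    have := Int.floor_le ((D 2 + m) / Real.sqrt 2)
    rw [le_div_iff₀ hs0] at this
    rw [hl]; push_cast; linarith
  have hc2 : D 2 + (m + l * Real.sqrt 2) ≤ Real.sqrt 2 := by
    have := (Int.lt_floor_add_one ((D 2 + m) / Real.sqrt 2)).le
    rw [div_le_iff₀ hs0] at this
    rw [hl]; push_cast; linarith
  have hfc : FutureCausal (S0 k) P (D + u) := by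
    rw [futureCausal_iff]
    have e0 : (D + u) 0 = D 0 := by simp [hu]
    have e1 : (D + u) 1 = D 1 + m := by simp [hu]
    have e2 : (D + u) 2 = D 2 + (m + l * Real.sqrt 2) := by simp [hu]
    have e3 : zz (D + u) (D + u) = zz D D := by simp [zz, hu]
    rw [e0, e1, e2, e3]
    have h1 : (2 + zz D D) / (2 * D 0) < D 1 + m := by linarith
    rw [div_lt_iff₀ (by positivity)] at h1
    have h2 : (D 2 + (m + l * Real.sqrt 2)) ^ 2 ≤ 2 := by nlinarith
    have h3 : 0 < D 1 + m := lt_of_le_of_lt (by positivity) (by linarith :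
      (2 + zz D D) / (2 * D 0) < D 1 + m)
    exact ⟨by nlinarith, by linarith⟩
  have h := line P (D + u) hfc
  have e : (S0 k).proj (P + (D + u)) = (S0 k).proj Q := by
    symm
    apply proj_eq
    have : P + (D + u) - Q = u := by rw [hD]; abel
    rw [this]; exact hmem
  rw [e] at h
  exact TransGen.single h

/-- The points ahead on the same null line. -/
lemma after_flow (x : (S0 k).Pt) {s : ℝ} (hs : 0 < s) : After (S0 k) x (x + flow s) := by
  obtain ⟨P, rfl⟩ := proj_surj x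
  have h := line P (s • kk) ((futureCausal_iff _ _).2 (by simp [kk, zz, hs]))
  rw [proj_add] at h
  exact TransGen.single h

lemma ht_flow (x : (S0 k).Pt) (s : ℝ) : ht (x + flow s) = ht x := by
  obtain ⟨P, rfl⟩ := proj_surj x
  unfold flow
  rw [← proj_add, ht_proj, ht_proj]
  simp [kk]

lemma flow_add (s t : ℝ) : (flow s + flow t : (S0 k).Pt) = flow (s + t) := by
  unfold flow
  rw [← proj_add, add_smul]

lemma flow_ne {s : ℝ} (hs : 0 < s) : (flow s : (S0 k).Pt) ≠ 0 := by
  intro h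
  have h1 : s • kk ∈ lat k := (QuotientAddGroup.eq_zero_iff _).1 h
  obtain ⟨m, l, h2⟩ := h1
  have e1 : s = m := by
    have := congrFun h2 1
    simpa [kk] using this
  have e2 : (0 : ℝ) = m + l * Real.sqrt 2 := by
    have := congrFun h2 2
    simpa [kk] using this
  have hl : l ≠ 0 := by
    rintro rfl
    simp only [Int.cast_zero, zero_mul, add_zero] at e2
    rw [e1, ← e2] at hs
    exact lt_irrefl _ hs
  have hl' : (l : ℝ) ≠ 0 := by exact_mod_cast hl
  apply irrational_sqrt_two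
  refine ⟨-(m : ℚ) / l, ?_⟩
  push_cast
  rw [div_eq_iff hl']
  linarith

/-- Smooth causal curves do not descend, and those which do not rise follow the null lines. -/
lemma step {x y : (S0 k).Pt} (h : SmoothCausal (S0 k) x y) :
    ht x < ht y ∨ ∃ s, 0 < s ∧ y = x + flow s := by
  obtain ⟨a, b, γ, hab, hγ, rfl, rfl, hc⟩ := h
  rw [ht_proj, ht_proj]
  have ha : a ∈ Icc a b := left_mem_Icc.2 hab.le
  have hb : b ∈ Icc a b := right_mem_Icc.2 hab.le
  have hu : UniqueDiffOn ℝ (Icc a b) := uniqueDiffOn_Icc hab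
  have hder : ∀ s ∈ Icc a b, ∀ i, HasDerivWithinAt (fun s => γ s i)
      (derivWithin γ (Icc a b) s i) (Icc a b) s := by
    intro s hs i
    have h1 : HasDerivWithinAt γ (derivWithin γ (Icc a b) s) (Icc a b) s :=
      ((hγ.differentiableOn (by simp)) s hs).hasDerivWithinAt
    exact (hasDerivWithinAt_pi.1 h1) i
  have hmono : MonotoneOn (fun s => γ s 0) (Icc a b) := by
    apply monotoneOn_of_deriv_nonneg (convex_Icc a b)
    · exact fun s hs => (hder s hs 0).continuousWithinAt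
    · intro s hs
      exact ((hder s (interior_subset hs) 0).hasDerivAt
        (mem_interior_iff_mem_nhds.1 hs)).differentiableAt.differentiableWithinAt
    · intro s hs
      have hs' : s ∈ Icc a b := interior_subset hs
      rw [((hder s hs' 0).hasDerivAt (mem_interior_iff_mem_nhds.1 hs)).deriv]
      exact (futureCausal_facts (hc s hs')).1
  rcases lt_or_eq_of_le (hmono ha hb hab.le) with hlt | heq
  · exact Or.inl hlt
  right
  simp only at heq
  have hz : ∀ s ∈ Icc a b, γ s 0 = γ a 0 := fun s hs =>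
    le_antisymm (heq ▸ hmono hs hb hs.2) (hmono ha hs hs.1)
  have hv0 : ∀ s ∈ Icc a b, derivWithin γ (Icc a b) s 0 = 0 := by
    intro s hs
    have h2 : HasDerivWithinAt (fun s => γ s 0) 0 (Icc a b) s :=
      (hasDerivWithinAt_const s (Icc a b) (γ a 0)).congr (fun r hr => hz r hr) (hz s hs)
    exact (hu s hs).eq_deriv _ (hder s hs 0) h2
  have hall : ∀ s ∈ Icc a b, 0 < derivWithin γ (Icc a b) s 1 ∧
      derivWithin γ (Icc a b) s 2 = 0 ∧
      ∀ i : Fin k, derivWithin γ (Icc a b) s i.succ.succ.succ = 0 :=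
    fun s hs => (futureCausal_facts (hc s hs)).2 (hv0 s hs)
  have hconst : ∀ i, (∀ s ∈ Icc a b, derivWithin γ (Icc a b) s i = 0) → γ b i = γ a i := by
    intro i hi
    have h1 : ∀ s ∈ Icc a b, HasDerivWithinAt (fun s => γ s i) 0 (Icc a b) s := by
      intro s hs
      have := hder s hs i
      rwa [hi s hs] at this
    exact constant_of_derivWithin_zero (f := fun s => γ s i) (a := a) (b := b)
      (fun s hs => (h1 s hs).differentiableWithinAt)
      (fun s hs => (h1 s (Ico_subset_Icc_self hs)).derivWithin (hu s (Ico_subset_Icc_self hs)))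
      b hb
  have hstrict : StrictMonoOn (fun s => γ s 1) (Icc a b) := by
    apply strictMonoOn_of_deriv_pos (convex_Icc a b)
    · exact fun s hs => (hder s hs 1).continuousWithinAt
    · intro s hs
      have hs' : s ∈ Icc a b := interior_subset hs
      rw [((hder s hs' 1).hasDerivAt (mem_interior_iff_mem_nhds.1 hs)).deriv]
      exact (hall s hs').1
  refine ⟨γ b 1 - γ a 1, sub_pos.2 (hstrict ha hb hab), ?_⟩
  unfold flow
  rw [← proj_add]
  congr 1
  refine ext3 ?_ ?_ ?_ (fun i => ?_)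
  · simpa [kk] using heq.symm
  · simp [kk]
  · simpa [kk] using hconst 2 (fun s hs => (hall s hs).2.1)
  · simpa [kk] using hconst _ (fun s hs => (hall s hs).2.2 i)

/-- **The after relation.** -/
lemma after_iff (x y : (S0 k).Pt) :
    After (S0 k) x y ↔ ht x < ht y ∨ ∃ s, 0 < s ∧ y = x + flow s := by
  constructor
  · intro h
    induction h with
    | single h => exact step h
    | tail _ h ih =>
      rcases ih with ih | ⟨s, hs, rfl⟩
      · rcases step h with h' | ⟨s, hs, rfl⟩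
        · exact Or.inl (ih.trans h')
        · left; rwa [ht_flow]
      · rcases step h with h' | ⟨s', hs', rfl⟩
        · left; rwa [ht_flow] at h'
        · exact Or.inr ⟨s + s', add_pos hs hs', by rw [add_assoc, flow_add]⟩
  · rintro (h | ⟨s, hs, rfl⟩)
    · exact after_of_lt h
    · exact after_flow x hs

theorem causal : IsCausal (S0 k) := by
  intro x h
  rcases (after_iff x x).1 h with h | ⟨s, hs, h⟩
  · exact lt_irrefl _ h
  · exact flow_ne hs (left_eq_add.1 h)

theorem valid : AfterTwoValid (After (S0 k)) := by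
  rintro p₁ p₂ q x ⟨⟨y₁, hx1, h1, h1', h1''⟩, ⟨y₂, hx2, h2, h2', h2''⟩, ⟨z, hz, hq⟩⟩
  -- a point between `x` and `z` at the height of `x`
  obtain ⟨s, hs, hsz⟩ : ∃ s, 0 < s ∧ After (S0 k) (x + flow s) z := by
    rcases (after_iff x z).1 hz with h | ⟨s, hs, rfl⟩
    · exact ⟨1, one_pos, after_of_lt (by rwa [ht_flow])⟩
    · refine ⟨s / 2, half_pos hs, ?_⟩
      have h := after_flow (x + flow (s / 2)) (half_pos hs)
      rwa [add_assoc, flow_add, add_halves] at h
  rcases (after_iff x y₁).1 hx1 with ha | ⟨s₁, hs₁, rfl⟩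
  · exact Or.inl ⟨x + flow s, after_flow x hs, ⟨y₁, after_of_lt (by rwa [ht_flow]), h1⟩, ⟨z, hsz, hq⟩⟩
  rcases (after_iff x y₂).1 hx2 with hb | ⟨s₂, hs₂, rfl⟩
  · exact Or.inr ⟨x + flow s, after_flow x hs, ⟨y₂, after_of_lt (by rwa [ht_flow]), h2⟩, ⟨z, hsz, hq⟩⟩
  exfalso
  have key : ∀ {u v : ℝ}, u < v → After (S0 k) (x + flow u) (x + flow v) := by
    intro u v huv
    have h := after_flow (x + flow u) (sub_pos.2 huv)
    rwa [add_assoc, flow_add, add_sub_cancel] at h
  rcases lt_trichotomy s₁ s₂ with h | h | h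
  · exact h1'' ⟨_, key h, fun hh => hh h2⟩
  · subst h; exact h1' h2
  · exact h2'' ⟨_, key h, fun hh => hh h1⟩

end Pool.Agent.KS6_25.CAU
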